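import Pool.Agent.H17.CX.Targets

/-!
# MP_70ba79_ag, THEOREM S (surfaces): restrictions of degree zero are constants
-/

set_option autoImplicit false

open MvPolynomial SC Pool.Agent.H27.LV
open Pool.Agent.H92.SF Pool.Agent.H3.SF Pool.Agent.H17.SD Pool.Agent.H17.SFG Pool.Agent.H17.CX

namespace Pool.Agent.H21.CNX

theorem pf_DGZ : T_DGZ := by
  intro k σ LL _ _ _ _ _ Q ρ W hQ hker hW d e p b hp hb hpQ hed z hz hint
  obtain ⟨f, hf, hfz⟩ := hint
  obtain ⟨n, hn⟩ : ∃ n, n = f.natDegree := ⟨_, rfl⟩
  have hρp : ρ p ≠ 0 := fun h => hpQ ((hker p).1 h)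
  have h1 : ∑ i ∈ Finset.range (n + 1), ρ (aeval W (f.coeff i)) * z ^ i = 0 := by
    rw [Polynomial.eval₂_eq_sum_range, ← hn] at hfz
    rw [← hfz]
    refine Finset.sum_congr rfl fun i _ => ?_
    congr 1
    exact DFunLike.congr_fun (comp_aeval W ρ) (f.coeff i)
  have hpw : ∀ i, i ∈ Finset.range (n + 1) → ρ b ^ i * ρ p ^ (n - i) = z ^ i * ρ p ^ n := by
    intro i hi
    have hi' : i ≤ n := by
      have := Finset.mem_range.1 hi
      omega
    rw [← hz, mul_pow]
    have e1 : ρ p ^ n = ρ p ^ i * ρ p ^ (n - i) := by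
      rw [← pow_add, Nat.add_sub_cancel' hi']
    rw [e1]
    ring
  have hS : ∑ i ∈ Finset.range (n + 1), aeval W (f.coeff i) * (b ^ i * p ^ (n - i)) ∈ Q := by
    rw [← hker, map_sum]
    have e1 : ∑ i ∈ Finset.range (n + 1), ρ (aeval W (f.coeff i) * (b ^ i * p ^ (n - i))) =
        (∑ i ∈ Finset.range (n + 1), ρ (aeval W (f.coeff i)) * z ^ i) * ρ p ^ n := by
      rw [Finset.sum_mul]
      refine Finset.sum_congr rfl fun i hi => ?_
      rw [map_mul, map_mul, map_pow, map_pow, hpw i hi]
      ring
    rw [e1, h1, zero_mul]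
  have hc := hQ _ hS (n * e)
  rw [map_sum] at hc
  have hlast : aeval W (f.coeff n) = 1 := by
    rw [hn, hf.coeff_natDegree, map_one]
  refine ⟨fun hlt => ?_, fun heq => ?_⟩
  · have e1 : ∑ i ∈ Finset.range (n + 1), homogeneousComponent (n * e)
        (aeval W (f.coeff i) * (b ^ i * p ^ (n - i))) = b ^ n := by
      rw [Finset.sum_range_succ, Finset.sum_eq_zero, zero_add, hlast, Nat.sub_self, pow_zero,
        mul_one, one_mul, homogeneousComponent_of_mem (n := e * n) (hb.pow n),
        if_pos (mul_comm _ _)]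
      intro i hi
      have hi' := Finset.mem_range.1 hi
      refine hc_mul' _ _ ((hb.pow i).mul (hp.pow (n - i))) _ ?_
      have h2 : e * (n - i) < d * (n - i) := Nat.mul_lt_mul_of_pos_right hlt (by omega)
      have h3 : e * i + e * (n - i) = n * e := by
        rw [← mul_add, Nat.add_sub_cancel' hi'.le, mul_comm]
      omega
    rw [e1, ← hker, map_pow] at hc
    have h2 : ρ b = 0 := by
      by_contra hne
      exact pow_ne_zero n hne hc
    rw [h2] at hz
    exact (mul_eq_zero.1 hz).resolve_left hρp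
  · subst heq
    have e1 : ∑ i ∈ Finset.range (n + 1), homogeneousComponent (n * e)
        (aeval W (f.coeff i) * (b ^ i * p ^ (n - i))) =
        ∑ i ∈ Finset.range (n + 1), C (constantCoeff (aeval W (f.coeff i))) *
          (b ^ i * p ^ (n - i)) := by
      refine Finset.sum_congr rfl fun i hi => ?_
      have hi' : i ≤ n := by
        have := Finset.mem_range.1 hi
        omega
      have h2 : (b ^ i * p ^ (n - i)).IsHomogeneous (n * e) := by
        have h3 := (hb.pow i).mul (hp.pow (n - i))
        rwa [← mul_add, Nat.add_sub_cancel' hi', mul_comm e n] at h3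
      have h4 := hc_mul (aeval W (f.coeff i)) _ h2 0
      rw [zero_add, homogeneousComponent_zero] at h4
      rw [h4]
      rfl
    rw [e1, ← hker, map_sum] at hc
    have e2 : ∑ i ∈ Finset.range (n + 1), ρ (C (constantCoeff (aeval W (f.coeff i))) *
        (b ^ i * p ^ (n - i))) = (∑ i ∈ Finset.range (n + 1),
          algebraMap k LL (constantCoeff (aeval W (f.coeff i))) * z ^ i) * ρ p ^ n := by
      rw [Finset.sum_mul]
      refine Finset.sum_congr rfl fun i hi => ?_
      rw [map_mul, map_mul, map_pow, map_pow, hpw i hi]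
      have h3 : ρ (C (constantCoeff (aeval W (f.coeff i)))) =
          algebraMap k LL (constantCoeff (aeval W (f.coeff i))) := ρ.commutes _
      rw [h3]
      ring
    rw [e2] at hc
    have h3 := (mul_eq_zero.1 hc).resolve_right (pow_ne_zero n hρp)
    have hzi : IsIntegral k z := by
      refine ⟨f.map ((constantCoeff : MvPolynomial σ k →+* k).comp
        ((aeval W : MvPolynomial (Fin 2) k →ₐ[k] MvPolynomial σ k) :
          MvPolynomial (Fin 2) k →+* MvPolynomial σ k)), hf.map _, ?_⟩
      rw [Polynomial.eval₂_map, Polynomial.eval₂_eq_sum_range, ← hn]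
      exact h3
    have h4 : (minpoly k z).degree = 1 := IsAlgClosed.degree_eq_one_of_irreducible k
      (minpoly.irreducible hzi)
    obtain ⟨c, hc'⟩ := minpoly.mem_range_of_degree_eq_one k z h4
    exact ⟨c, hc'.symm⟩

end Pool.Agent.H21.CNX
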